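import Pool.Agent.Q2.BP.Large
import Pool.Agent.Q2.BP.Data

set_option autoImplicit false

namespace Pool.Agent.Results.MP_596674_nt.NoParryPowers

open Q2.BP Polynomial

lemma main {d : ℕ} (hd : 4 ≤ d) {b : ℝ} (hb : 1 < b) (hbd : b ^ d = b + 1) {k : ℕ}
    (hk : 1 ≤ k) : ∃ x : ℂ, x ^ d = x + 1 ∧ ∀ M : ℝ, ∃ n, M < ‖ww (b ^ k) (x ^ k) n‖ := by
  by_cases h : 13 ≤ d
  · exact large h hb hbd hk
  · push Not at h
    interval_cases d
    · exact dat_sound (Y := Y4) (L := L4) (by norm_num) D4 R4 hb hbd hk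
    · exact dat_sound (Y := Y5) (L := L5) (by norm_num) D5 R5 hb hbd hk
    · exact dat_sound (Y := Y6) (L := L6) (by norm_num) D6 R6 hb hbd hk
    · exact dat_sound (Y := Y7) (L := L7) (by norm_num) D7 R7 hb hbd hk
    · exact dat_sound (Y := Y8) (L := L8) (by norm_num) D8 R8 hb hbd hk
    · exact dat_sound (Y := Y9) (L := L9) (by norm_num) D9 R9 hb hbd hk
    · exact dat_sound (Y := Y10) (L := L10) (by norm_num) D10 R10 hb hbd hk
    · exact dat_sound (Y := Y11) (L := L11) (by norm_num) D11 R11 hb hbd hk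
    · exact dat_sound (Y := Y12) (L := L12) (by norm_num) D12 R12 hb hbd hk

/-- For every `d ≥ 4` and `k ≥ 1`, the orbit of `1` under `x ↦ βx - ⌊βx⌋` with `β = b ^ k`,
where `b > 1` is the real root of `x ^ d - x - 1`, is infinite: no power of `b` is a Parry
number. -/
theorem result (d : ℕ) (hd : 4 ≤ d) (b : ℝ) (hb : 1 < b) (hroot : b ^ d - b - 1 = 0)
    (k : ℕ) (hk : 1 ≤ k) :
    ¬ {y : ℝ | ∃ n : ℕ, 1 ≤ n ∧ y = (fun x : ℝ => b ^ k * x - ⌊b ^ k * x⌋)^[n] 1}.Finite := by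
  intro hfin
  have hP : IsParry (b ^ k) := hfin
  have hbd : b ^ d = b + 1 := by linarith
  obtain ⟨x, hx, hunb⟩ := main hd hb hbd hk
  have hirr : Irreducible (X ^ d - X - 1 : ℚ[X]) :=
    X_pow_sub_X_sub_one_irreducible_rat (by omega)
  obtain ⟨M, hM⟩ := bounded_of_parry hP hirr (b := b) (k := k) rfl
    (by simp [hbd]) (x := x) (by simp [hx])
  obtain ⟨n, hn⟩ := hunb M
  exact absurd (hM n) (not_le.mpr hn)

end Pool.Agent.Results.MP_596674_nt.NoParryPowers
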